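import Mathlib

/-! The points of infinite order on `y² = x³ - 2`, and zeros of functions on this curve. -/

set_option autoImplicit false

open Polynomial

namespace Pool.Agent.U815.PK

/-- the duplication: `x(2P)` -/
theorem dbl_rat {x y : ℚ} {n : ℕ} (h : y ^ 2 = x ^ 3 - 2) (hx : x ≠ 0)
    (hv : padicValRat 2 x = -2 * (n : ℤ)) :
    y ≠ 0 ∧ ((3 * x ^ 2 / (2 * y)) ^ 2 - 2 * x) ≠ 0 ∧
    padicValRat 2 ((3 * x ^ 2 / (2 * y)) ^ 2 - 2 * x) = -2 * ((n + 1 : ℕ) : ℤ) := by
  have : Fact (Nat.Prime 2) := ⟨Nat.prime_two⟩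
  have v2 : padicValRat 2 (2 : ℚ) = 1 := by
    have := padicValRat.self (p := 2) (by norm_num)
    simpa using this
  have vx3 : padicValRat 2 (x ^ 3) = -6 * (n : ℤ) := by
    rw [padicValRat.pow, hv]; push_cast; ring
  have vx4 : padicValRat 2 (x ^ 4) = -8 * (n : ℤ) := by
    rw [padicValRat.pow, hv]; push_cast; ring
  have v16 : padicValRat 2 (16 * x) = 4 - 2 * (n : ℤ) := by
    have e : (16 : ℚ) * x = 2 ^ 4 * x := by norm_num
    rw [e, padicValRat.mul (by norm_num) hx, padicValRat.pow, v2, hv]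
    push_cast; ring
  have vm2 : padicValRat 2 (-2 : ℚ) = 1 := by rw [padicValRat.neg, v2]
  have x3ne : x ^ 3 + (-2) ≠ 0 := by
    intro h0
    have h1 : x ^ 3 = 2 := by linarith
    rw [h1, v2] at vx3
    omega
  have x4ne : x ^ 4 + 16 * x ≠ 0 := by
    intro h0
    have h1 : x ^ 4 = -(16 * x) := by linarith
    rw [h1, padicValRat.neg, v16] at vx4
    omega
  have vy2 : padicValRat 2 (x ^ 3 + (-2)) = -6 * (n : ℤ) := by
    rw [padicValRat.add_eq_of_lt x3ne (pow_ne_zero 3 hx) (by norm_num) (by rw [vx3, vm2]; omega), vx3]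
  have vnum : padicValRat 2 (x ^ 4 + 16 * x) = -8 * (n : ℤ) := by
    rw [padicValRat.add_eq_of_lt x4ne (pow_ne_zero 4 hx) (mul_ne_zero (by norm_num) hx)
      (by rw [vx4, v16]; omega), vx4]
  have hy : y ≠ 0 := by
    rintro rfl
    apply x3ne
    have : (0 : ℚ) ^ 2 = 0 := by norm_num
    rw [this] at h
    linarith
  have key : (3 * x ^ 2 / (2 * y)) ^ 2 - 2 * x = (x ^ 4 + 16 * x) / (2 ^ 2 * (x ^ 3 + (-2))) := by
    have e1 : (3 * x ^ 2 / (2 * y)) ^ 2 = 9 * x ^ 4 / (4 * y ^ 2) := by ring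
    rw [e1, h]
    have h3 : x ^ 3 - 2 ≠ 0 := by intro h0; apply x3ne; linarith
    field_simp
    ring
  refine ⟨hy, ?_, ?_⟩
  · rw [key]
    exact div_ne_zero x4ne (mul_ne_zero (by norm_num) x3ne)
  · rw [key, padicValRat.div x4ne (mul_ne_zero (by norm_num) x3ne), vnum,
      padicValRat.mul (by norm_num) x3ne, vy2, padicValRat.pow, v2]
    push_cast; ring

/-- coordinates of the point `2^n (3, 5)` on `y² = x³ - 2` -/
def seq : ℕ → ℚ × ℚ
  | 0 => (3, 5)
  | n + 1 =>
    let x := (seq n).1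
    let y := (seq n).2
    let l := 3 * x ^ 2 / (2 * y)
    (l ^ 2 - 2 * x, -(l * (l ^ 2 - 2 * x - x) + y))

theorem seq_spec (n : ℕ) : (seq n).2 ^ 2 = (seq n).1 ^ 3 - 2 ∧ (seq n).1 ≠ 0 ∧
    padicValRat 2 (seq n).1 = -2 * (n : ℤ) := by
  induction n with
  | zero =>
    refine ⟨by norm_num [seq], by norm_num [seq], ?_⟩
    have : padicValRat 2 (3 : ℚ) = 0 := by
      have h := padicValRat.of_nat (p := 2) (n := 3)
      have h2 : padicValNat 2 3 = 0 := by
        apply padicValNat.eq_zero_of_not_dvd; norm_num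
      rw [h2] at h
      simpa using h
    simpa [seq] using this
  | succ n ih =>
    obtain ⟨h1, h2, h3⟩ := ih
    obtain ⟨a, b, c⟩ := dbl_rat h1 h2 h3
    refine ⟨?_, b, c⟩
    simp only [seq]
    set x := (seq n).1
    set y := (seq n).2
    have hl : 3 * x ^ 2 / (2 * y) * (2 * y) = 3 * x ^ 2 := by field_simp
    set l := 3 * x ^ 2 / (2 * y)
    -- the line through `(x, y)` of slope `l` is tangent
    linear_combination (1 : ℚ) * h1 + (l ^ 2 - 3 * x) * hl

theorem seq_y (n : ℕ) : (seq n).2 ≠ 0 := by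
  obtain ⟨h1, h2, h3⟩ := seq_spec n
  exact (dbl_rat h1 h2 h3).1

theorem seq_inj : Function.Injective fun n => (seq n).1 := by
  intro m n h
  have h1 := (seq_spec m).2.2
  have h2 := (seq_spec n).2.2
  simp only at h
  rw [h, h2] at h1
  omega

end Pool.Agent.U815.PK
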