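import Mathlib

/-!
# An abelian scheme of relative dimension three over `𝔾_m` over `ℚ`

`k` is an algebraic closure of `ℚ` and `E` is the elliptic curve `y² = x³ - 2` over `ℚ`.
Let `S' = 𝔾_m → S = 𝔾_m`, `t ↦ t³`, a finite étale cover of degree three, and let `𝒜 → S` be the
Weil restriction of the constant abelian scheme `E × S' → S'`.  The fibre of `𝒜` over `s ∈ k*` is
the group of maps from the set `{t | t³ = s}` of the three points above `s` to `E`.
This file defines the set `A` of the `k`-points of `𝒜`, its fibrewise group structure and its
Zariski topology.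
-/

set_option autoImplicit false

open MvPolynomial

noncomputable section

namespace Pool.Agent.U815.PK

/-- an algebraic closure of `ℚ` -/
abbrev k : Type := AlgebraicClosure ℚ

instance : DecidableEq k := Classical.decEq k

/-- the Weierstrass curve `y² = x³ - 2` over `k` -/
abbrev W : WeierstrassCurve.Affine k := ⟨0, 0, 0, 0, -2⟩

/-- the group of `k`-points of the elliptic curve `y² = x³ - 2` -/
abbrev E : Type := WeierstrassCurve.Affine.Point W

/-- homogeneous coordinates `(X : Y : Z)` of a point of `E` in the projective plane -/
def crd : E → Fin 3 → k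
  | .zero => ![0, 1, 0]
  | .some x y _ => ![x, y, 1]

/-- the group `k*`, the set of `k`-points of `𝔾_m` -/
abbrev U : Type := kˣ

/-- the set of the `k`-points of `S' × E × E × E`, where `S' = 𝔾_m` -/
def Y : Type := U × (Fin 3 → E)

/-- the coordinates of a point `(t, P)` of `S' × E³`: `none` is the index of `t`, and
`some (i, j)` is the index of the `j`-th homogeneous coordinate of `P i` -/
def coords (y : Y) : Option (Fin 3 × Fin 3) → k
  | none => (y.1 : k)
  | some (i, j) => crd (y.2 i) j

/-- the weight which counts the homogeneous coordinates of the `i`-th point -/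
def wt (i : Fin 3) : Option (Fin 3 × Fin 3) → ℕ
  | none => 0
  | some (i', _) => if i' = i then 1 else 0

/-- polynomials in all coordinates -/
abbrev Poly : Type := MvPolynomial (Option (Fin 3 × Fin 3)) k

/-- polynomials in all coordinates which are homogeneous in the coordinates of each of the three
points of `E` -/
def Multihom (p : Poly) : Prop :=
  ∀ i, ∃ n, IsWeightedHomogeneous (wt i) p n

/-- the set of points where a polynomial is different from zero -/
def nonzeroSet (p : Poly) : Set Y := {y | eval (coords y) p ≠ 0}

/-- the Zariski topology of `S' × E³`: the complements of the zero sets of multihomogeneous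
polynomials form a basis of the open sets -/
instance : TopologicalSpace Y :=
  TopologicalSpace.generateFrom {V | ∃ p, Multihom p ∧ V = nonzeroSet p}

/-- the cover `S' = 𝔾_m → S = 𝔾_m`, `t ↦ t³` -/
def cube (t : U) : U := t ^ 3

theorem exists_zeta : ∃ z : U, cube z = 1 ∧ z ≠ 1 := by
  obtain ⟨z, hz⟩ := IsAlgClosed.exists_root (Polynomial.cyclotomic 3 k) (by
    rw [Polynomial.degree_cyclotomic]; decide)
  have h1 : IsPrimitiveRoot z 3 := (Polynomial.isRoot_cyclotomic_iff (n := 3)).1 hz
  refine ⟨Units.mk0 z (h1.ne_zero (by norm_num)), ?_, ?_⟩
  · ext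
    simpa [cube] using h1.pow_eq_one
  · intro h
    have h2 : z = 1 := by simpa using congrArg Units.val h
    exact h1.ne_one (by norm_num) h2

/-- a primitive cube root of unity in `k` -/
def ζ : U := exists_zeta.choose

/-- the three points of `S'` over the point `s` of `S`: the cube roots of `s` -/
def Roots (s : U) : Type := {t : U // cube t = s}

/-- the fibre of `𝒜` over `s`: the group of the maps from the set of the cube roots of `s` to `E` -/
def Fib (s : U) : Type := Roots s → E

instance (s : U) : AddCommGroup (Fib s) := Pi.addCommGroup (I := Roots s) (f := fun _ => E)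

/-- the set of `k`-points of `𝒜`: pairs of `s ∈ k*` and a map from the cube roots of `s`
to `E` -/
def A : Type := Σ s : U, Fib s

/-- the point of `𝒜` given by the map `f` on the cube roots of `s` -/
def mk (s : U) (f : Fib s) : A := ⟨s, f⟩

/-- the index of the cube root `t` of `u³`: `0` for `u`, `1` for `ζ u` and `2` for `ζ² u` -/
def idx (u t : U) : Fin 3 :=
  haveI := Classical.decEq U
  if t = u then 0 else if t = ζ * u then 1 else 2

/-- the quotient map `S' × E³ → 𝒜`: it maps `(u; P₀, P₁, P₂)` to the map
`u ↦ P₀`, `ζ u ↦ P₁`, `ζ² u ↦ P₂` in the fibre over `u³` -/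
def q (y : Y) : A := mk (cube y.1) fun t => y.2 (idx y.1 t.1)

/-- the Zariski topology of `𝒜`, which is the quotient of `S' × E³` by a group of order three -/
instance : TopologicalSpace A := TopologicalSpace.coinduced q inferInstance

/-- the set of `k`-points of a group subscheme of `𝒜` over `S` meets each fibre in a subgroup -/
def IsGroupSubset (G : Set A) : Prop :=
  ∀ s : U, ∃ H : AddSubgroup (Fib s), ∀ f, mk s f ∈ G ↔ f ∈ H

/-- the subset of `𝒜` given by a subgroup of the fibre over `s` -/
def inFibre (s : U) (H : AddSubgroup (Fib s)) : Set A := mk s '' H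

/-- the set `𝒜^{[>d]}`: the union of all closed subgroups of codimension greater than `d` of the
fibres; the fibres have dimension three -/
def bracket (d : ℕ) : Set A :=
  {a | ∃ H : AddSubgroup (Fib a.1), a.2 ∈ H ∧
    IsClosed (inFibre a.1 H) ∧ topologicalKrullDim (inFibre a.1 H) + (d : WithBot ℕ∞) < 3}

end Pool.Agent.U815.PK
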