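import Pool.Agent.U815.PK.Main

/-! The curve `X` is irreducible of dimension one and contained in `𝒜^{[>1]}`. -/

set_option autoImplicit false

open TopologicalSpace

noncomputable section

namespace Pool.Agent.U815.PK

theorem XX_dense (F : Set A) (hF : IsClosed F) (h : (F ∩ XX).Infinite) : XX ⊆ F := by
  have h1 := preimage_A (reg fun Q : C' => Q.1) (good_reg _ Subtype.val_injective)
    (fun Q : C' => mkY (xu Q) (Pi.single 0 (pt Q.1))) coordsC' F hF (by
      intro hfin
      apply h
      refine (hfin.image fun Q : C' => q (mkY (xu Q) (Pi.single 0 (pt Q.1)))).subset ?_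
      rintro _ ⟨h2, ⟨Q, rfl⟩⟩
      exact ⟨Q, h2, rfl⟩)
  rintro _ ⟨Q, rfl⟩
  exact h1 Q

theorem c_inj : Function.Injective fun Q : C' => q (mkY (xu Q) (Pi.single 0 (pt Q.1))) := by
  intro Q Q' h
  have h1 := congrArg (fun a => val a (xu Q)) h
  simp only [val_single, zp_zero, one_mul, if_true] at h1
  by_cases h2 : xu Q = xu Q'
  · rw [if_pos h2] at h1
    exact Subtype.ext (pt_inj h1)
  · rw [if_neg h2] at h1
    exact absurd h1 (pt_ne _)

/-- the point `2^n (3, 5)` of the curve -/
def R' (n : ℕ) : C' := ⟨R 1 (by norm_num) n, by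
  simp only [R, one_mul]
  exact_mod_cast (seq_spec n).2.1⟩

theorem R'_inj : Function.Injective R' := by
  intro m n h
  exact R_inj 1 (by norm_num) (congrArg Subtype.val h)

theorem XX_infinite : XX.Infinite := by
  refine (Set.infinite_range_of_injective (c_inj.comp R'_inj)).mono ?_
  rintro _ ⟨n, rfl⟩
  exact ⟨R' n, rfl⟩

theorem XX_irred : IsIrreducible XX := by
  refine ⟨XX_infinite.nonempty, ?_⟩
  rw [isPreirreducible_iff_isClosed_union_isClosed]
  intro F F' hF hF' h
  by_cases h1 : (F ∩ XX).Infinite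
  · left; exact XX_dense F hF h1
  · right
    refine XX_dense F' hF' ?_
    intro h2
    apply XX_infinite
    refine ((Set.not_infinite.1 h1).union h2).subset ?_
    intro a ha
    rcases h ha with h3 | h3
    · left; exact ⟨h3, ha⟩
    · right; exact ⟨h3, ha⟩

theorem XX_dim : topologicalKrullDim XX = 1 := by
  apply le_antisymm
  · exact dim_le_one XX (q (mkY 1 0)) fun F hF h x hx _ => XX_dense F hF h hx
  · show 1 ≤ Order.krullDim (IrreducibleCloseds XX)
    rw [Order.one_le_krullDim_iff]
    have : IrreducibleSpace XX := isIrreducible_iff_irreducibleSpace.1 XX_irred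
    obtain ⟨a, ha⟩ := XX_infinite.nonempty
    refine ⟨⟨{⟨a, ha⟩}, isIrreducible_singleton, isClosed_singleton⟩,
      ⟨Set.univ, IrreducibleSpace.isIrreducible_univ _, isClosed_univ⟩, ?_⟩
    refine lt_of_le_of_ne (fun b _ => trivial) ?_
    intro h
    have h1 : ({⟨a, ha⟩} : Set XX) = Set.univ := congrArg IrreducibleCloseds.carrier h
    apply XX_infinite
    refine (Set.finite_singleton a).subset ?_
    intro b hb
    have : (⟨b, hb⟩ : XX) ∈ ({⟨a, ha⟩} : Set XX) := by rw [h1]; trivial
    exact congrArg Subtype.val this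

/-- the maps on the cube roots of `s` which are zero outside of `u` -/
def supp (s u : kˣ) : AddSubgroup (Fib s) where
  carrier := {f | ∀ t, t.1 ≠ u → f t = 0}
  zero_mem' := fun _ _ => rfl
  add_mem' := by
    intro f g hf hg t ht
    show f t + g t = 0
    rw [hf t ht, hg t ht, add_zero]
  neg_mem' := by
    intro f hf t ht
    show -f t = 0
    rw [hf t ht, neg_zero]

theorem mem_supp_image (u : kˣ) (a : A) :
    a ∈ mk (cube u) '' (supp (cube u) u : Set (Fib (cube u))) ↔
      ∃ P, a = q (mkY u (Pi.single 0 P)) := by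
  constructor
  · rintro ⟨f, hf, rfl⟩
    refine ⟨f ⟨u, rfl⟩, ?_⟩
    apply A_ext
    · rfl
    · intro t ht
      rw [val_single, zp_zero, one_mul]
      have e : val (mk (cube u) f) t = f ⟨t, ht⟩ := dif_pos ht
      rw [e]
      by_cases h : t = u
      · subst h; rw [if_pos rfl]
      · rw [if_neg h]; exact hf ⟨t, ht⟩ h
  · rintro ⟨P, rfl⟩
    refine ⟨fun t => (Pi.single 0 P : Fin 3 → E) (idx u t.1), ?_, rfl⟩
    intro t ht
    refine Pi.single_eq_of_ne ?_ _
    intro h
    apply ht
    have := root_eq t.2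
    rw [h, zp_zero, one_mul] at this
    exact this

theorem supp_closed (u : kˣ) :
    IsClosed (mk (cube u) '' (supp (cube u) u : Set (Fib (cube u)))) := by
  rw [isClosed_coinduced]
  have h1 : q ⁻¹' (mk (cube u) '' (supp (cube u) u : Set (Fib (cube u)))) =
      ⋃ i : Fin 3, {y : Y | y.1 = (zp i)⁻¹ * u} ∩
        ⋂ j : {j : Fin 3 // j ≠ i}, {y : Y | y.2 j.1 = 0} := by
    ext y
    simp only [Set.mem_preimage, Set.mem_iUnion, Set.mem_inter_iff, Set.mem_ofPred_eq,
      Set.mem_iInter, Subtype.forall]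
    rw [mem_supp_image]
    constructor
    · rintro ⟨P, hP⟩
      have h1 := (q_eq_iff y.1 y.2 _).1 hP
      have h2 : u = zp (idx y.1 u) * y.1 := root_eq h1.1.symm
      refine ⟨idx y.1 u, ?_, ?_⟩
      · rw [eq_inv_mul_iff_mul_eq]; exact h2.symm
      · intro j hj
        rw [h1.2 j, val_single, zp_zero, one_mul, if_neg]
        intro h
        exact hj (zp_inj (mul_right_cancel (h.trans h2)))
    · rintro ⟨i, h1, h2⟩
      refine ⟨y.2 i, ?_⟩
      have hu : u = zp i * y.1 := by rw [h1]; simp
      have hy : y = mkY y.1 (Pi.single i (y.2 i)) := by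
        refine Prod.ext rfl (funext fun j => ?_)
        by_cases hj : j = i
        · subst hj; simp [mkY]
        · simp only [mkY]
          rw [h2 j hj, Pi.single_eq_of_ne hj]
      have h3 := q_single y.1 i (y.2 i)
      rw [← hy, ← hu] at h3
      exact h3
  rw [h1]
  refine isClosed_iUnion_of_finite fun i => ?_
  exact (closed_fst _).inter (isClosed_iInter fun j => closed_snd_zero j.1)

theorem supp_dim (u : kˣ) : topologicalKrullDim
    (mk (cube u) '' (supp (cube u) u : Set (Fib (cube u)))) ≤ 1 := by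
  apply dim_le_one _ (q (mkY u (Pi.single 0 0)))
  intro F hF h x hx hxo
  have h1 := preimage_A (reg fun Q : C => Q) (good_reg _ fun _ _ h => h)
    (fun Q : C => mkY u (Pi.single 0 (pt Q))) (coordsC u 0) F hF (by
      intro hfin
      apply h
      refine ((hfin.image fun Q : C => q (mkY u (Pi.single 0 (pt Q)))).union
        (Set.finite_singleton (q (mkY u (Pi.single 0 0))))).subset ?_
      rintro a ⟨ha, ha'⟩
      obtain ⟨P, rfl⟩ := (mem_supp_image u a).1 ha'
      rcases cases_E P with rfl | ⟨Q, rfl⟩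
      · right; rfl
      · left; exact ⟨Q, ha, rfl⟩)
  obtain ⟨P, rfl⟩ := (mem_supp_image u x).1 hx
  rcases cases_E P with rfl | ⟨Q, rfl⟩
  · exact absurd rfl hxo
  · exact h1 Q

theorem XX_bracket : XX ⊆ bracket 1 := by
  rintro _ ⟨Q, rfl⟩
  refine ⟨supp _ (xu Q), ?_, supp_closed (xu Q), ?_⟩
  · intro t ht
    refine Pi.single_eq_of_ne ?_ _
    intro h
    apply ht
    have := root_eq t.2
    change idx (xu Q) t.1 = 0 at h
    change t.1 = zp (idx (xu Q) t.1) * xu Q at this
    rw [h, zp_zero, one_mul] at this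
    exact this
  · have h1 := supp_dim (xu Q)
    have h2 : (1 : WithBot ℕ∞) + ((1 : ℕ) : WithBot ℕ∞) < 3 := by
      norm_num
    exact lt_of_le_of_lt (add_le_add_left h1 _) h2

theorem main : ∃ X : Set A, IsClosed X ∧ IsIrreducible X ∧ topologicalKrullDim X = 1 ∧
    (∀ G : Set A, IsClosed G → IsGroupSubset G → X ⊆ G → G = Set.univ) ∧
    X ⊆ bracket 1 :=
  ⟨XX, closed_XX, XX_irred, XX_dim, main_group, XX_bracket⟩

end Pool.Agent.U815.PK
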