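import Pool.Agent.U815.PK.Points

/-! The map `q : S' × E³ → 𝒜` and some closed sets. -/

set_option autoImplicit false

open MvPolynomial

noncomputable section

namespace Pool.Agent.U815.PK

theorem cube_iff {u t : kˣ} : cube t = cube u ↔ t ^ 3 = u ^ 3 := Iff.rfl

theorem zeta_pow : ζ ^ 3 = 1 := exists_zeta.choose_spec.1

theorem zeta_ne : ζ ≠ 1 := exists_zeta.choose_spec.2

theorem zeta_sq_ne : ζ ^ 2 ≠ 1 := by
  intro h
  apply zeta_ne
  have h1 := zeta_pow
  rw [pow_succ, h, one_mul] at h1
  exact h1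

/-- the powers of `ζ` -/
def zp (i : Fin 3) : kˣ := ζ ^ (i : ℕ)

theorem zp_pow (i : Fin 3) : (zp i) ^ 3 = 1 := by
  rw [zp, ← pow_mul, mul_comm, pow_mul, zeta_pow, one_pow]

theorem zp_zero : zp 0 = 1 := by simp [zp]
theorem zp_one : zp 1 = ζ := by simp [zp]
theorem zp_two : zp 2 = ζ ^ 2 := by simp [zp]

theorem zp_inj : Function.Injective zp := by
  intro i j h
  have h2 : ζ ≠ ζ ^ 2 := by
    intro h
    apply zeta_ne
    rw [pow_two] at h
    exact (mul_eq_left.1 h.symm)
  fin_cases i <;> fin_cases j <;> first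
    | rfl
    | (exfalso; revert h; simp only [Fin.zero_eta, Fin.mk_one, Fin.reduceFinMk, zp_zero, zp_one, zp_two]; first
        | exact zeta_ne | exact zeta_ne.symm | exact zeta_sq_ne | exact zeta_sq_ne.symm
        | exact h2 | exact h2.symm)

theorem root_eq {u t : kˣ} (h : cube t = cube u) : t = zp (idx u t) * u := by
  unfold idx
  split_ifs with h1 h2
  · rw [zp_zero, one_mul, h1]
  · rw [zp_one, h2]
  · rw [zp_two]
    -- `(t - u) (t - ζ u) (t - ζ² u) = t³ - u³`
    have e1 : ((ζ : kˣ) : k) ^ 3 = 1 := by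
      rw [← Units.val_pow_eq_pow_val, zeta_pow, Units.val_one]
    have e2 : ((ζ : kˣ) : k) - 1 ≠ 0 := by
      intro h; apply zeta_ne; ext; simpa using sub_eq_zero.1 h
    have e3 : ((ζ : kˣ) : k) ^ 2 + ζ + 1 = 0 := by
      have : ((ζ : kˣ) : k) ^ 3 - 1 = (ζ - 1) * (ζ ^ 2 + ζ + 1) := by ring
      rw [e1, sub_self] at this
      rcases mul_eq_zero.1 this.symm with h | h
      · exact absurd h e2
      · exact h
    have e4 : (t : k) ^ 3 = (u : k) ^ 3 := by
      have h' : t ^ 3 = u ^ 3 := h
      rw [← Units.val_pow_eq_pow_val, h', Units.val_pow_eq_pow_val]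
    have e5 : ((t : k) - u) * (t - ζ * u) * (t - ζ ^ 2 * u) = 0 := by
      linear_combination e4 - (u : k) ^ 3 * e1 - (t ^ 2 * u - t * u ^ 2 * ζ) * e3
    rcases mul_eq_zero.1 e5 with e6 | e6
    · rcases mul_eq_zero.1 e6 with e7 | e7
      · exact absurd (Units.ext (sub_eq_zero.1 e7)) h1
      · exact absurd (Units.ext (by rw [sub_eq_zero.1 e7]; simp)) h2
    · exact Units.ext (by rw [sub_eq_zero.1 e6]; simp)

theorem zp_mul_pow (i : Fin 3) (u : kˣ) : cube (zp i * u) = cube u := by
  rw [cube, cube, mul_pow, zp_pow, one_mul]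

theorem idx_zp (i : Fin 3) (u : kˣ) : idx u (zp i * u) = i := by
  have h := root_eq (zp_mul_pow i u)
  exact (zp_inj (mul_right_cancel h)).symm

/-- the point of `S' × E³` with given components -/
def mkY (u : kˣ) (P : Fin 3 → E) : Y := (u, P)

theorem q_mkY (u : kˣ) (P : Fin 3 → E) : q (mkY u P) = mk (cube u) fun t => P (idx u t.1) := rfl

/-- the value of a point of `𝒜`, that is, of a map, at `t` -/
def val (a : A) (t : kˣ) : E := if h : cube t = a.1 then a.2 ⟨t, h⟩ else 0

theorem A_ext {a b : A} (h1 : a.1 = b.1) (h2 : ∀ t, cube t = a.1 → val a t = val b t) : a = b := by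
  rcases a with ⟨s, f⟩
  rcases b with ⟨s', f'⟩
  simp only at h1
  subst h1
  congr 1
  funext t
  have := h2 t.1 t.2
  simp only [val] at this
  rw [dif_pos t.2, dif_pos t.2] at this
  exact this

theorem val_q (u : kˣ) (P : Fin 3 → E) (t : kˣ) :
    val (q (mkY u P)) t = if cube t = cube u then P (idx u t) else 0 := by
  unfold val
  split_ifs with h1 h2 h2
  · rfl
  · exact absurd h1 h2
  · exact absurd h2 h1
  · rfl

theorem q_fst (u : kˣ) (P : Fin 3 → E) : (q (mkY u P)).1 = cube u := rfl

theorem q_eq_iff (u : kˣ) (P : Fin 3 → E) (a : A) :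
    q (mkY u P) = a ↔ cube u = a.1 ∧ ∀ i, P i = val a (zp i * u) := by
  constructor
  · rintro rfl
    refine ⟨rfl, fun i => ?_⟩
    rw [val_q, if_pos (zp_mul_pow i u), idx_zp]
  · rintro ⟨h1, h2⟩
    refine A_ext h1 fun t ht => ?_
    have ht' : cube t = cube u := ht
    rw [val_q, if_pos ht', h2, ← root_eq ht']

theorem q_surj : Function.Surjective q := by
  intro a
  obtain ⟨z, hz⟩ := IsAlgClosed.exists_pow_nat_eq (a.1 : k) (n := 3) (by norm_num)
  have hz0 : z ≠ 0 := by
    rintro rfl
    have : (a.1 : k) = 0 := by rw [← hz]; norm_num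
    exact a.1.ne_zero this
  refine ⟨mkY (Units.mk0 z hz0) fun i => val a (zp i * Units.mk0 z hz0), ?_⟩
  rw [q_eq_iff]
  refine ⟨?_, fun i => rfl⟩
  ext
  simpa [cube] using hz

theorem val_single (u : kˣ) (i : Fin 3) (P : E) (t : kˣ) :
    val (q (mkY u (Pi.single i P))) t = if t = zp i * u then P else 0 := by
  rw [val_q]
  by_cases h : cube t = cube u
  · rw [if_pos h]
    by_cases h2 : t = zp i * u
    · rw [if_pos h2, h2, idx_zp, Pi.single_eq_same]
    · rw [if_neg h2, Pi.single_eq_of_ne]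
      intro h3
      apply h2
      rw [← h3]
      exact root_eq h
  · rw [if_neg h, if_neg]
    rintro rfl
    exact h (zp_mul_pow i u)

theorem q_single (u : kˣ) (i : Fin 3) (P : E) :
    q (mkY u (Pi.single i P)) = q (mkY (zp i * u) (Pi.single 0 P)) := by
  apply A_ext
  · rw [q_fst, q_fst, zp_mul_pow]
  · intro t _
    rw [val_single, val_single, zp_zero, one_mul]

/-! ### closed sets -/

theorem closed_zero (p : Poly) (hp : Multihom p) :
    IsClosed {y : Y | eval (coords y) p = 0} := by
  rw [← isOpen_compl_iff]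
  exact TopologicalSpace.isOpen_generateFrom_of_mem ⟨p, hp, rfl⟩

theorem wh_sub {w : Option (Fin 3 × Fin 3) → ℕ} {n : ℕ}
    {p p' : MvPolynomial (Option (Fin 3 × Fin 3)) k}
    (h : IsWeightedHomogeneous w p n) (h' : IsWeightedHomogeneous w p' n) :
    IsWeightedHomogeneous w (p - p') n := by
  rw [← mem_weightedHomogeneousSubmodule] at h h' ⊢
  exact Submodule.sub_mem _ h h'

theorem closed_fst (u : kˣ) : IsClosed {y : Y | y.1 = u} := by
  have h := closed_zero (X none - MvPolynomial.C (u : k)) (fun i => ⟨0, wh_sub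
    (isWeightedHomogeneous_X k (wt i) none) (isWeightedHomogeneous_C (wt i) _)⟩)
  convert h using 1
  ext y
  simp only [Set.mem_ofPred_eq, map_sub, eval_X, eval_C, coords, sub_eq_zero]
  exact ⟨fun h => by rw [h], fun h => Units.ext h⟩

theorem crd_two (P : E) : crd P 2 = 0 ↔ P = 0 := by
  rcases cases_E P with rfl | ⟨Q, rfl⟩
  · simp [crd_zero]
  · simp [crd_pt, pt_ne]

theorem closed_snd_zero (i : Fin 3) : IsClosed {y : Y | y.2 i = 0} := by
  have h := closed_zero (X (some (i, 2))) (fun i' => ⟨_, isWeightedHomogeneous_X k (wt i') _⟩)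
  convert h using 1
  ext y
  simp only [Set.mem_ofPred_eq, eval_X, coords, crd_two]

theorem closed_snd_pt (i : Fin 3) (Q : C) : IsClosed {y : Y | y.2 i = pt Q} := by
  have h0 := closed_zero (X (some (i, 0)) - MvPolynomial.C Q.1.1 * X (some (i, 2))) (fun i' => ⟨_, wh_sub
    (isWeightedHomogeneous_X k (wt i') _) (by
      have := (isWeightedHomogeneous_C (wt i') Q.1.1).mul
        (isWeightedHomogeneous_X k (wt i') (some (i, 2)))
      rw [zero_add] at this
      exact this)⟩)
  have h1 := closed_zero (X (some (i, 1)) - MvPolynomial.C Q.1.2 * X (some (i, 2))) (fun i' => ⟨_, wh_sub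
    (isWeightedHomogeneous_X k (wt i') _) (by
      have := (isWeightedHomogeneous_C (wt i') Q.1.2).mul
        (isWeightedHomogeneous_X k (wt i') (some (i, 2)))
      rw [zero_add] at this
      exact this)⟩)
  convert h0.inter h1 using 1
  ext y
  simp only [Set.mem_ofPred_eq, Set.mem_inter_iff, map_sub, map_mul, eval_X, eval_C, coords]
  rcases cases_E (y.2 i) with h | ⟨Q', h⟩
  · rw [h]
    simp only [crd_zero]
    constructor
    · intro h'; exact absurd h'.symm (pt_ne Q)
    · rintro ⟨-, h'⟩; simp at h'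
  · rw [h]
    simp only [crd_pt]
    constructor
    · intro h'; rw [pt_inj h']; simp
    · rintro ⟨h1, h2⟩
      simp [sub_eq_zero] at h1 h2
      congr 1
      exact Subtype.ext (Prod.ext h1 h2)

theorem closed_curve (i j : Fin 3) :
    IsClosed {y : Y | ∃ Q : C, y.2 i = pt Q ∧ Q.1.1 = ((zp j * y.1 : kˣ) : k)} := by
  have h0 := closed_zero (X (some (i, 0)) - MvPolynomial.C (zp j : k) * X none * X (some (i, 2)))
    (fun i' => ⟨_, wh_sub (isWeightedHomogeneous_X k (wt i') _) (by
      have := ((isWeightedHomogeneous_C (wt i') (zp j : k)).mul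
        (isWeightedHomogeneous_X k (wt i') none)).mul
        (isWeightedHomogeneous_X k (wt i') (some (i, 2)))
      simp only [wt, zero_add] at this ⊢
      exact this)⟩)
  have h1 := closed_zero (X (some (i, 1)) ^ 2 - (X none ^ 3 - MvPolynomial.C 2) * X (some (i, 2)) ^ 2)
    (fun i' => ⟨_, wh_sub ((isWeightedHomogeneous_X k (wt i') _).pow 2) (by
      have h3 : IsWeightedHomogeneous (wt i')
          (X none ^ 3 - MvPolynomial.C 2 : MvPolynomial (Option (Fin 3 × Fin 3)) k) 0 :=
        wh_sub (by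
          have := (isWeightedHomogeneous_X k (wt i') none).pow 3
          simp only [wt, smul_zero] at this
          exact this) (isWeightedHomogeneous_C (wt i') _)
      have := h3.mul ((isWeightedHomogeneous_X k (wt i') (some (i, 2))).pow 2)
      rw [zero_add] at this
      exact this)⟩)
  convert h0.inter h1 using 1
  ext y
  simp only [Set.mem_ofPred_eq, Set.mem_inter_iff, map_sub, map_mul, map_pow, eval_X, eval_C,
    coords, Units.val_mul]
  rcases cases_E (y.2 i) with h | ⟨Q', h⟩
  · rw [h]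
    simp only [crd_zero]
    constructor
    · rintro ⟨Q, h', -⟩; exact absurd h'.symm (pt_ne Q)
    · rintro ⟨-, h'⟩; simp at h'
  · rw [h]
    simp only [crd_pt]
    have hz : ((zp j : kˣ) : k) ^ 3 = 1 := by
      rw [← Units.val_pow_eq_pow_val, zp_pow, Units.val_one]
    constructor
    · rintro ⟨Q, h1, h2⟩
      rw [← pt_inj h1] at h2
      have h3 := Q'.2
      refine ⟨by simp [h2], ?_⟩
      rw [h2] at h3
      simp only [Matrix.cons_val_one, Matrix.cons_val, Matrix.cons_val_zero]
      simp only [mul_pow, hz] at h3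
      linear_combination h3
    · rintro ⟨h1, -⟩
      refine ⟨Q', rfl, ?_⟩
      simpa [sub_eq_zero] using h1

instance : T1Space Y := ⟨fun y => by
  have h1 : ∀ i, IsClosed {y' : Y | y'.2 i = y.2 i} := by
    intro i
    rcases cases_E (y.2 i) with h | ⟨Q, h⟩
    · rw [h]; exact closed_snd_zero i
    · rw [h]; exact closed_snd_pt i Q
  have h2 : ({y} : Set Y) = {y' : Y | y'.1 = y.1} ∩ ⋂ i, {y' : Y | y'.2 i = y.2 i} := by
    ext y'
    simp only [Set.mem_singleton_iff, Set.mem_inter_iff, Set.mem_ofPred_eq, Set.mem_iInter]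
    constructor
    · rintro rfl; exact ⟨rfl, fun _ => rfl⟩
    · rintro ⟨h, h'⟩; exact Prod.ext h (funext h')
  rw [h2]
  exact (closed_fst _).inter (isClosed_iInter h1)⟩

instance : T1Space A := ⟨fun a => by
  rw [isClosed_coinduced]
  obtain ⟨y, hy⟩ := q_surj a
  have hfin : (q ⁻¹' {a}).Finite := by
    refine (Set.finite_range fun j : Fin 3 =>
      mkY (zp j * y.1) fun i => val a (zp i * (zp j * y.1))).subset ?_
    intro y' hy'
    have h1 := (q_eq_iff y'.1 y'.2 a).1 hy'
    have h2 := (q_eq_iff y.1 y.2 a).1 hy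
    have h3 : y'.1 = zp (idx y.1 y'.1) * y.1 := root_eq (h1.1.trans h2.1.symm)
    refine ⟨idx y.1 y'.1, ?_⟩
    simp only
    rw [← h3]
    exact Prod.ext rfl (funext fun i => (h1.2 i).symm)
  exact hfin.isClosed⟩

end Pool.Agent.U815.PK
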