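import Pool.Agent.U815.PK.Geo

/-! The curve `X` in `𝒜`, its dimension, and the group subschemes containing it. -/

set_option autoImplicit false

open TopologicalSpace

noncomputable section

namespace Pool.Agent.U815.PK

/-- the points of the curve with nonzero first coordinate -/
def C' : Type := {Q : C // Q.1.1 ≠ 0}

/-- the first coordinate as a unit -/
def xu (Q : C') : kˣ := Units.mk0 Q.1.1.1 Q.2

/-- the curve `{[t; Q, 0, 0] : x(Q) = t ≠ 0}` in `𝒜` -/
def XX : Set A := Set.range fun Q : C' => q (mkY (xu Q) (Pi.single 0 (pt Q.1)))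

theorem closed_XX : IsClosed XX := by
  rw [isClosed_coinduced]
  have h1 : q ⁻¹' XX = ⋃ i : Fin 3, {y : Y | ∃ Q : C, y.2 i = pt Q ∧
      Q.1.1 = ((zp i * y.1 : kˣ) : k)} ∩ ⋂ j : {j : Fin 3 // j ≠ i}, {y : Y | y.2 j.1 = 0} := by
    ext y
    simp only [Set.mem_preimage, Set.mem_iUnion, Set.mem_inter_iff, Set.mem_ofPred_eq,
      Set.mem_iInter, Subtype.forall]
    constructor
    · rintro ⟨Q, hQ⟩
      simp only at hQ
      have h1 := (q_eq_iff y.1 y.2 _).1 hQ.symm
      have h2 : xu Q = zp (idx y.1 (xu Q)) * y.1 := root_eq h1.1.symm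
      set i := idx y.1 (xu Q)
      have h3 : ∀ j, y.2 j = if j = i then pt Q.1 else 0 := by
        intro j
        rw [h1.2 j, val_single, zp_zero, one_mul, h2]
        by_cases hj : j = i
        · rw [if_pos hj, if_pos (by rw [hj])]
        · rw [if_neg hj, if_neg]
          intro h
          exact hj (zp_inj (mul_right_cancel h))
      refine ⟨i, ⟨Q.1, ?_, ?_⟩, ?_⟩
      · rw [h3, if_pos rfl]
      · rw [← h2]; rfl
      · intro j hj
        rw [h3, if_neg hj]
    · rintro ⟨i, ⟨Q, h1, h2⟩, h3⟩
      have hQ : Q.1.1 ≠ 0 := by rw [h2]; exact Units.ne_zero _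
      refine ⟨⟨Q, hQ⟩, ?_⟩
      have hu : xu ⟨Q, hQ⟩ = zp i * y.1 := Units.ext h2
      have hy : y = mkY y.1 (Pi.single i (pt Q)) := by
        refine Prod.ext rfl (funext fun j => ?_)
        by_cases hj : j = i
        · subst hj; simp [mkY, h1]
        · simp only [mkY]
          rw [h3 j hj, Pi.single_eq_of_ne hj]
      simp only
      rw [hy, q_single y.1 i, ← hu]
  rw [h1]
  refine isClosed_iUnion_of_finite fun i => ?_
  exact (closed_curve i i).inter (isClosed_iInter fun j => closed_snd_zero j.1)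

/-! ### coordinates of families of points -/

theorem crd_const_mem {T : Type} (R : Subalgebra k (T → k)) (P : E) (j : Fin 3) :
    (fun _ : T => crd P j) ∈ R := R.algebraMap_mem _

theorem crd_pt_mem {T : Type} (φ : T → C) (j : Fin 3) :
    (fun τ : T => crd (pt (φ τ)) j) ∈ reg φ := by
  fin_cases j
  · exact ⟨Polynomial.X, 0, fun τ => by simp [crd_pt]⟩
  · exact ⟨0, 1, fun τ => by simp [crd_pt]⟩
  · exact ⟨1, 0, fun τ => by simp [crd_pt]⟩

theorem crd_single_mem {T : Type} (φ : T → C) (i i' j : Fin 3) :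
    (fun τ : T => crd ((Pi.single i (pt (φ τ)) : Fin 3 → E) i') j) ∈ reg φ := by
  by_cases h : i' = i
  · subst h
    simp only [Pi.single_eq_same]
    exact crd_pt_mem φ j
  · simp only [Pi.single_eq_of_ne h]
    exact crd_const_mem _ _ _

theorem coordsC' (v : Option (Fin 3 × Fin 3)) :
    (fun Q : C' => coords (mkY (xu Q) (Pi.single 0 (pt Q.1))) v) ∈ reg (fun Q : C' => Q.1) := by
  rcases v with _ | ⟨i, j⟩
  · exact ⟨Polynomial.X, 0, fun τ => by simp [coords, mkY, xu]⟩
  · exact crd_single_mem (fun Q : C' => Q.1) 0 i j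

theorem coordsC (u : kˣ) (i : Fin 3) (v : Option (Fin 3 × Fin 3)) :
    (fun Q : C => coords (mkY u (Pi.single i (pt Q))) v) ∈ reg (fun Q : C => Q) := by
  rcases v with _ | ⟨i', j⟩
  · exact (reg fun Q : C => Q).algebraMap_mem (u : k)
  · exact crd_single_mem (fun Q : C => Q) i i' j

theorem coordsU (P : Fin 3 → E) (v : Option (Fin 3 × Fin 3)) :
    (fun u : kˣ => coords (mkY u P) v) ∈ pol := by
  rcases v with _ | ⟨i', j⟩
  · exact ⟨Polynomial.X, fun τ => by simp [coords, mkY]⟩
  · exact crd_const_mem _ _ _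

/-! ### group subschemes containing the curve -/

/-- the `x`-coordinate of `2^n (3, 5)` as a unit of `k` -/
def xn (n : ℕ) : kˣ := Units.mk0 ((seq n).1 : k) (by exact_mod_cast (seq_spec n).2.1)

theorem xn_inj : Function.Injective xn := by
  intro m n h
  have h1 : ((seq m).1 : k) = ((seq n).1 : k) := congrArg Units.val h
  exact seq_inj (by exact_mod_cast h1)

theorem zp_cube (i : Fin 3) : ((zp i : kˣ) : k) ^ 3 = 1 := by
  rw [← Units.val_pow_eq_pow_val, zp_pow, Units.val_one]

theorem group_fibre (G : Set A) (hG : IsGroupSubset G) (u : kˣ) :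
    ∃ H : AddSubgroup (Fin 3 → E), ∀ P, q (mkY u P) ∈ G ↔ P ∈ H := by
  obtain ⟨H, hH⟩ := hG (cube u)
  let f : (Fin 3 → E) →+ Fib (cube u) :=
    { toFun := fun P t => P (idx u t.1)
      map_zero' := rfl
      map_add' := fun _ _ => rfl }
  exact ⟨H.comap f, fun P => hH (f P)⟩

theorem main_group (G : Set A) (hc : IsClosed G) (hG : IsGroupSubset G) (hX : XX ⊆ G) :
    G = Set.univ := by
  have step : ∀ n P, q (mkY (xn n) P) ∈ G := by
    intro n
    obtain ⟨H, hH⟩ := group_fibre G hG (xn n)
    have h1 : ∀ i : Fin 3, ∀ P : E, (Pi.single i P : Fin 3 → E) ∈ H := by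
      intro i
      have h2 : (Pi.single i (pt (R (zp i) (zp_cube i) n)) : Fin 3 → E) ∈ H := by
        rw [← hH, q_single]
        apply hX
        refine ⟨⟨R (zp i) (zp_cube i) n, ?_⟩, ?_⟩
        · simp only [R]
          exact mul_ne_zero (Units.ne_zero _) (by exact_mod_cast (seq_spec n).2.1)
        · simp only
          congr 2
          ext
          simp [xu, xn, R]
      have h3 : ∀ m, (Pi.single i (pt (R (zp i) (zp_cube i) (n + m))) : Fin 3 → E) ∈ H := by
        intro m
        rw [R_pow]
        have := H.nsmul_mem h2 (2 ^ m)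
        have e : (Pi.single i ((2 ^ m) • pt (R (zp i) (zp_cube i) n)) : Fin 3 → E)
            = (2 ^ m) • Pi.single i (pt (R (zp i) (zp_cube i) n)) :=
          map_nsmul (AddMonoidHom.single (fun _ : Fin 3 => E) i) (2 ^ m) _
        rw [e]
        exact this
      have h4 : ∀ Q : C, q (mkY (xn n) (Pi.single i (pt Q))) ∈ G := by
        refine preimage_A (reg fun Q : C => Q) (good_reg _ fun _ _ h => h)
          (fun Q : C => mkY (xn n) (Pi.single i (pt Q))) (coordsC (xn n) i) G hc ?_
        refine (Set.infinite_range_of_injective (f := fun m => R (zp i) (zp_cube i) (n + m))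
          ?_).mono ?_
        · intro m m' h
          exact Nat.add_left_cancel (R_inj _ _ h)
        · rintro _ ⟨m, rfl⟩
          exact (hH _).2 (h3 m)
      intro P
      rcases cases_E P with rfl | ⟨Q, rfl⟩
      · rw [Pi.single_zero]; exact H.zero_mem
      · exact (hH _).1 (h4 Q)
    intro P
    rw [hH, ← Finset.univ_sum_single P]
    exact H.sum_mem fun i _ => h1 i (P i)
  rw [Set.eq_univ_iff_forall]
  intro a
  obtain ⟨y, rfl⟩ := q_surj a
  have h5 := preimage_A pol good_pol (fun u => mkY u y.2) (coordsU y.2) G hc (by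
    refine (Set.infinite_range_of_injective xn_inj).mono ?_
    rintro _ ⟨m, rfl⟩
    exact step m y.2) y.1
  exact h5

/-! ### dimensions -/

theorem dim_le_one (Z : Set A) (o : A)
    (h : ∀ F : Set A, IsClosed F → (F ∩ Z).Infinite → ∀ x ∈ Z, x ≠ o → x ∈ F) :
    topologicalKrullDim Z ≤ 1 := by
  -- closed subsets of the subspace
  have h' : ∀ F : Set Z, IsClosed F → F.Infinite → ∀ x : Z, x.1 ≠ o → x ∈ F := by
    intro F hF hinf x hx
    obtain ⟨F', hF', rfl⟩ := isClosed_induced_iff.1 hF
    refine h F' hF' ?_ x.1 x.2 hx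
    refine (hinf.image (f := Subtype.val) Subtype.val_injective.injOn).mono ?_
    rintro _ ⟨z, hz, rfl⟩
    exact ⟨hz, z.2⟩
  have hfin : ∀ F : IrreducibleCloseds Z, (F : Set Z).Finite → ∀ a ∈ (F : Set Z), (F : Set Z) ⊆ {a} := by
    intro F hF a ha
    have h1 : (F : Set Z) ⊆ {a} ∪ ((F : Set Z) \ {a}) := by
      intro b hb
      by_cases hb' : b = a
      · left; exact hb'
      · right; exact ⟨hb, hb'⟩
    have h2 := (isPreirreducible_iff_isClosed_union_isClosed.1 F.isIrreducible.isPreirreducible)
      {a} ((F : Set Z) \ {a}) isClosed_singleton (hF.subset Set.sdiff_subset).isClosed h1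
    rcases h2 with h2 | h2
    · exact h2
    · exact absurd rfl (h2 ha).2
  show Order.krullDim (IrreducibleCloseds Z) ≤ 1
  rw [Order.krullDim_le_one_iff]
  intro F
  by_cases hF : (F : Set Z).Finite
  · left
    intro F' hF'
    obtain ⟨a, ha⟩ := F'.isIrreducible.nonempty
    have h1 := hfin F hF a (hF' ha)
    intro b hb
    rw [Set.mem_singleton_iff.1 (h1 hb)]
    exact ha
  · right
    intro F' hF'
    have hinf : (F : Set Z).Infinite := hF
    have h1 := h' F F.isClosed hinf
    -- the set `{o}`
    have hoc : IsClosed {z : Z | z.1 = o} := by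
      have : IsClosed ((Subtype.val : Z → A) ⁻¹' {o}) :=
        isClosed_singleton.preimage continuous_subtype_val
      exact this
    have h2 := (isPreirreducible_iff_isClosed_union_isClosed.1 F'.isIrreducible.isPreirreducible)
      {z : Z | z.1 = o} (F : Set Z) hoc F.isClosed (by
        intro z _
        by_cases hz : z.1 = o
        · left; exact hz
        · right; exact h1 z hz)
    rcases h2 with h2 | h2
    · exfalso
      apply hinf
      refine Set.Subsingleton.finite ?_
      intro a ha b hb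
      have e1 := h2 (hF' ha)
      have e2 := h2 (hF' hb)
      exact Subtype.ext (e1.trans e2.symm)
    · exact h2

end Pool.Agent.U815.PK
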