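import Pool.Agent.U815.PK.Reg
import Pool.Agent.U815.PK.Curve

/-! The points `2^n (3, 5)` and their conjugates under `x ↦ ζ x`. -/

set_option autoImplicit false

noncomputable section

namespace Pool.Agent.U815.PK

theorem delta_ne : WeierstrassCurve.Δ W ≠ 0 := by
  simp only [WeierstrassCurve.Δ, WeierstrassCurve.b₂, WeierstrassCurve.b₄, WeierstrassCurve.b₆,
    WeierstrassCurve.b₈]
  norm_num

theorem nonsing (Q : C) : WeierstrassCurve.Affine.Nonsingular W Q.1.1 Q.1.2 := by
  refine (WeierstrassCurve.Affine.equation_iff_nonsingular_of_Δ_ne_zero delta_ne).1 ?_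
  rw [WeierstrassCurve.Affine.equation_iff]
  have := Q.2
  simp only [zero_mul, add_zero]
  rw [this]; ring

/-- the affine point with given coordinates -/
def pt (Q : C) : E := .some Q.1.1 Q.1.2 (nonsing Q)

theorem pt_inj : Function.Injective pt := by
  intro Q Q' h
  simp only [pt, WeierstrassCurve.Affine.Point.some.injEq] at h
  exact Subtype.ext (Prod.ext h.1 h.2)

theorem pt_ne (Q : C) : pt Q ≠ 0 := WeierstrassCurve.Affine.Point.some_ne_zero _

theorem cases_E (P : E) : P = 0 ∨ ∃ Q, P = pt Q := by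
  rcases P with _ | ⟨x, y, h⟩
  · left; rfl
  · right
    have h1 := (WeierstrassCurve.Affine.equation_iff x y).1 h.1
    refine ⟨⟨(x, y), ?_⟩, rfl⟩
    simp only [zero_mul, add_zero] at h1
    simp only [h1]; ring

theorem crd_zero : crd (0 : E) = ![0, 1, 0] := rfl

theorem crd_pt (Q : C) : crd (pt Q) = ![Q.1.1, Q.1.2, 1] := rfl

/-- the point with coordinates `(z x, y)`, where `(x, y) = 2^n (3, 5)` -/
def R (z : k) (hz : z ^ 3 = 1) (n : ℕ) : C :=
  ⟨(z * ((seq n).1 : k), ((seq n).2 : k)), by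
    have h := (seq_spec n).1
    have h' : (((seq n).2 : k)) ^ 2 = ((seq n).1 : k) ^ 3 - 2 := by exact_mod_cast congrArg (Rat.cast : ℚ → k) h
    simp only [mul_pow, hz, h']; ring⟩

theorem R_inj (z : k) (hz : z ^ 3 = 1) : Function.Injective (R z hz) := by
  intro m n h
  have h1 : z * ((seq m).1 : k) = z * ((seq n).1 : k) := congrArg (fun Q : C => Q.1.1) h
  have hz0 : z ≠ 0 := by rintro rfl; norm_num at hz
  have h2 := mul_left_cancel₀ hz0 h1
  exact seq_inj (by exact_mod_cast h2)

theorem R_double (z : k) (hz : z ^ 3 = 1) (n : ℕ) :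
    pt (R z hz (n + 1)) = pt (R z hz n) + pt (R z hz n) := by
  have hy0 : ((seq n).2 : k) ≠ 0 := by exact_mod_cast seq_y n
  have hne : (R z hz n).1.2 ≠ WeierstrassCurve.Affine.negY W (R z hz n).1.1 (R z hz n).1.2 := by
    simp only [R, WeierstrassCurve.Affine.negY]
    intro h
    apply hy0
    have h2 : (2 : k) * ((seq n).2 : k) = 0 := by linear_combination h
    rcases mul_eq_zero.1 h2 with h3 | h3
    · norm_num at h3
    · exact h3
  have hadd := WeierstrassCurve.Affine.Point.add_self_of_Y_ne (W := W) (h₁ := nonsing (R z hz n)) hne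
  rw [show pt (R z hz n) + pt (R z hz n) = _ from hadd]
  simp only [pt, WeierstrassCurve.Affine.Point.some.injEq]
  have hl : WeierstrassCurve.Affine.slope W (R z hz n).1.1 (R z hz n).1.1 (R z hz n).1.2
      (R z hz n).1.2 = z ^ 2 * (3 * ((seq n).1 : k) ^ 2 / (2 * ((seq n).2 : k))) := by
    rw [WeierstrassCurve.Affine.slope_of_Y_ne rfl hne]
    simp only [R, WeierstrassCurve.Affine.negY]
    have e : ((seq n).2 : k) - (-((seq n).2 : k) - 0 * (z * ((seq n).1 : k)) - 0)
        = 2 * ((seq n).2 : k) := by ring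
    rw [e, ← mul_div_assoc]
    congr 1
    ring
  have hX : (R z hz (n + 1)).1.1 =
      WeierstrassCurve.Affine.addX W (R z hz n).1.1 (R z hz n).1.1
        (WeierstrassCurve.Affine.slope W (R z hz n).1.1 (R z hz n).1.1 (R z hz n).1.2
      (R z hz n).1.2) := by
    rw [hl]
    simp only [R, WeierstrassCurve.Affine.addX, seq]
    push_cast
    linear_combination (-z * (3 * ((seq n).1 : k) ^ 2 / (2 * ((seq n).2 : k))) ^ 2) * hz
  refine ⟨hX, ?_⟩
  rw [WeierstrassCurve.Affine.addY, WeierstrassCurve.Affine.negAddY, ← hX, hl]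
  simp only [R, WeierstrassCurve.Affine.negY, seq]
  push_cast
  set l : k := 3 * ((seq n).1 : k) ^ 2 / (2 * ((seq n).2 : k))
  linear_combination (l * (l ^ 2 - 2 * ((seq n).1 : k) - ((seq n).1 : k))) * hz

theorem R_pow (z : k) (hz : z ^ 3 = 1) (n m : ℕ) :
    pt (R z hz (n + m)) = (2 ^ m) • pt (R z hz n) := by
  induction m with
  | zero => simp
  | succ m ih =>
    rw [← add_assoc, R_double, ih, pow_succ, mul_comm, mul_smul, two_smul]

end Pool.Agent.U815.PK
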