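import Pool.Agent.U815.PK.Defs

/-! Functions `a(x) + b(x) y` on the curve `y² = x³ - 2`, and cofinite topologies. -/

set_option autoImplicit false

noncomputable section

namespace Pool.Agent.U815.PK

/-- affine points of the curve -/
def C : Type := {v : k × k // v.2 ^ 2 = v.1 ^ 3 - 2}

theorem C_infinite_image (Z : Set C) (hZ : Z.Infinite) :
    ((fun Q : C => Q.1.1) '' Z).Infinite := by
  intro hfin
  apply hZ
  refine Set.Finite.of_finite_fibers (fun Q : C => Q.1.1) hfin ?_
  intro x _
  have h1 : {y : k | y ^ 2 = x ^ 3 - 2}.Finite := by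
    have h2 : (Polynomial.X ^ 2 - Polynomial.C (x ^ 3 - 2) : Polynomial k) ≠ 0 :=
      Polynomial.X_pow_sub_C_ne_zero (by norm_num) _
    refine (Polynomial.finite_setOfPred_isRoot h2).subset ?_
    intro y hy
    simp only [Set.mem_ofPred_eq] at hy ⊢
    simp [Polynomial.IsRoot, hy]
  refine Set.Finite.of_finite_image (f := fun Q : C => Q.1.2) (h1.subset ?_) ?_
  · rintro y ⟨Q, ⟨_, hQ⟩, rfl⟩
    simp only [Set.mem_preimage, Set.mem_singleton_iff] at hQ
    have := Q.2
    simp only [Set.mem_ofPred_eq]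
    rw [← hQ]; exact this
  · rintro Q ⟨_, hQ⟩ Q' ⟨_, hQ'⟩ h
    simp only [Set.mem_preimage, Set.mem_singleton_iff] at hQ hQ'
    apply Subtype.ext
    exact Prod.ext (hQ.trans hQ'.symm) h

theorem norm_lemma (a b : Polynomial k) (Z : Set C) (hZ : Z.Infinite)
    (h : ∀ Q ∈ Z, a.eval Q.1.1 + b.eval Q.1.1 * Q.1.2 = 0) : a = 0 ∧ b = 0 := by
  have hN : a ^ 2 - b ^ 2 * (Polynomial.X ^ 3 - Polynomial.C 2) = 0 := by
    apply Polynomial.eq_zero_of_infinite_isRoot
    refine (C_infinite_image Z hZ).mono ?_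
    rintro x ⟨Q, hQ, rfl⟩
    have h1 := h Q hQ
    have h2 := Q.2
    simp only [Set.mem_ofPred_eq, Polynomial.IsRoot, Polynomial.eval_sub, Polynomial.eval_pow,
      Polynomial.eval_mul, Polynomial.eval_X, Polynomial.eval_C]
    rw [← h2]
    have h3 : Polynomial.eval Q.1.1 a = - (Polynomial.eval Q.1.1 b * Q.1.2) := by
      linear_combination h1
    rw [h3]; ring
  have hb : b = 0 := by
    by_contra hb
    have h1 : a ^ 2 = b ^ 2 * (Polynomial.X ^ 3 - Polynomial.C 2) := by
      linear_combination hN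
    have h2 : (Polynomial.X ^ 3 - Polynomial.C 2 : Polynomial k).natDegree = 3 :=
      Polynomial.natDegree_X_pow_sub_C
    have h3 : (Polynomial.X ^ 3 - Polynomial.C 2 : Polynomial k) ≠ 0 :=
      Polynomial.X_pow_sub_C_ne_zero (by norm_num) _
    have h4 := congrArg Polynomial.natDegree h1
    rw [Polynomial.natDegree_mul (pow_ne_zero 2 hb) h3, Polynomial.natDegree_pow,
      Polynomial.natDegree_pow, h2] at h4
    omega
  refine ⟨?_, hb⟩
  rw [hb] at hN
  have : a ^ 2 = 0 := by simpa using hN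
  exact pow_eq_zero_iff (by norm_num) |>.1 this

/-- the algebra of the functions `a(x) + b(x) y` on a set mapped to the curve -/
def reg {T : Type} (φ : T → C) : Subalgebra k (T → k) where
  carrier := {f | ∃ a b : Polynomial k, ∀ τ, f τ = a.eval (φ τ).1.1 + b.eval (φ τ).1.1 * (φ τ).1.2}
  mul_mem' := by
    rintro f g ⟨a, b, h⟩ ⟨a', b', h'⟩
    refine ⟨a * a' + b * b' * (Polynomial.X ^ 3 - Polynomial.C 2), a * b' + b * a', fun τ => ?_⟩
    have h2 := (φ τ).2
    simp only [Pi.mul_apply, h, h', Polynomial.eval_add, Polynomial.eval_mul, Polynomial.eval_sub,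
      Polynomial.eval_pow, Polynomial.eval_X, Polynomial.eval_C]
    linear_combination (Polynomial.eval (φ τ).1.1 b * Polynomial.eval (φ τ).1.1 b') * h2
  add_mem' := by
    rintro f g ⟨a, b, h⟩ ⟨a', b', h'⟩
    refine ⟨a + a', b + b', fun τ => ?_⟩
    simp only [Pi.add_apply, h, h', Polynomial.eval_add]
    ring
  algebraMap_mem' := by
    intro r
    exact ⟨Polynomial.C r, 0, fun τ => by simp⟩

/-- the algebra of the polynomial functions on `k*` -/
def pol : Subalgebra k (kˣ → k) where
  carrier := {f | ∃ a : Polynomial k, ∀ τ : kˣ, f τ = a.eval (τ : k)}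
  mul_mem' := by
    rintro f g ⟨a, h⟩ ⟨a', h'⟩
    exact ⟨a * a', fun τ => by simp [h, h']⟩
  add_mem' := by
    rintro f g ⟨a, h⟩ ⟨a', h'⟩
    exact ⟨a + a', fun τ => by simp [h, h']⟩
  algebraMap_mem' := by
    intro r
    exact ⟨Polynomial.C r, fun τ => by simp⟩

/-- a function in the algebra with infinitely many zeros is zero -/
def Good {T : Type} (R : Subalgebra k (T → k)) : Prop :=
  ∀ f ∈ R, {τ | f τ = 0}.Infinite → f = 0

theorem good_reg {T : Type} (φ : T → C) (hφ : Function.Injective φ) : Good (reg φ) := by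
  rintro f ⟨a, b, h⟩ hinf
  have h1 : (φ '' {τ | f τ = 0}).Infinite := hinf.image hφ.injOn
  obtain ⟨ha, hb⟩ := norm_lemma a b _ h1 (by
    rintro Q ⟨τ, hτ, rfl⟩
    rw [← h τ]; exact hτ)
  funext τ
  rw [h τ, ha, hb]; simp

theorem good_pol : Good pol := by
  rintro f ⟨a, h⟩ hinf
  have ha : a = 0 := by
    apply Polynomial.eq_zero_of_infinite_isRoot
    refine (hinf.image (f := fun τ : kˣ => (τ : k)) Units.val_injective.injOn).mono ?_
    rintro x ⟨τ, hτ, rfl⟩
    simp only [Set.mem_ofPred_eq, Polynomial.IsRoot]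
    rw [← h τ]; exact hτ
  funext τ
  rw [h τ, ha]; simp

theorem eval_mem {T : Type} (R : Subalgebra k (T → k)) (c : T → Y)
    (hc : ∀ v, (fun τ => coords (c τ) v) ∈ R) (p : MvPolynomial (Option (Fin 3 × Fin 3)) k) :
    (fun τ => MvPolynomial.eval (coords (c τ)) p) ∈ R := by
  induction p using MvPolynomial.induction_on with
  | C a =>
    simp only [MvPolynomial.eval_C]
    exact R.algebraMap_mem a
  | add p p' hp hp' =>
    simp only [map_add]
    exact R.add_mem hp hp'
  | mul_X p v hp =>
    simp only [map_mul, MvPolynomial.eval_X]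
    exact R.mul_mem hp (hc v)

theorem preimage_of_good {T : Type} (R : Subalgebra k (T → k)) (hR : Good R) (c : T → Y)
    (hc : ∀ v, (fun τ => coords (c τ) v) ∈ R) (F : Set Y) (hF : IsClosed F)
    (hinf : (c ⁻¹' F).Infinite) : c ⁻¹' F = Set.univ := by
  have hcont : Continuous (fun τ : CofiniteTopology T => c (CofiniteTopology.of.symm τ)) := by
    rw [continuous_generateFrom_iff]
    rintro V ⟨p, -, rfl⟩
    simp only [nonzeroSet]
    by_cases hz : {τ : T | MvPolynomial.eval (coords (c τ)) p = 0}.Infinite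
    · have h0 := hR _ (eval_mem R c hc p) hz
      convert isOpen_empty
      ext τ
      have := congrFun h0 (CofiniteTopology.of.symm τ)
      simpa using this
    · rw [Set.not_infinite] at hz
      rw [← isClosed_compl_iff, CofiniteTopology.isClosed_iff]
      right
      refine (hz.preimage (f := CofiniteTopology.of.symm)
        (Equiv.injective _).injOn).subset ?_
      intro τ hτ
      simp only [Set.mem_compl_iff, Set.mem_preimage, Set.mem_ofPred_eq, not_not] at hτ ⊢
      exact hτ
  have h1 := hF.preimage hcont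
  rw [CofiniteTopology.isClosed_iff] at h1
  rcases h1 with h1 | h1
  · ext τ
    have : CofiniteTopology.of τ ∈ (fun τ => c (CofiniteTopology.of.symm τ)) ⁻¹' F := by
      rw [h1]; trivial
    simpa using this
  · refine absurd ((h1.preimage (f := CofiniteTopology.of) (Equiv.injective _).injOn).subset ?_) hinf
    intro τ hτ
    simpa using hτ

theorem preimage_A {T : Type} (R : Subalgebra k (T → k)) (hR : Good R) (c : T → Y)
    (hc : ∀ v, (fun τ => coords (c τ) v) ∈ R) (F : Set A) (hF : IsClosed F)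
    (hinf : {τ | q (c τ) ∈ F}.Infinite) (τ : T) : q (c τ) ∈ F := by
  have h1 : IsClosed (q ⁻¹' F) := hF.preimage continuous_coinduced_rng
  have h2 := preimage_of_good R hR c hc _ h1 hinf
  have h3 : τ ∈ c ⁻¹' (q ⁻¹' F) := by rw [h2]; trivial
  exact h3

end Pool.Agent.U815.PK
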